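import Pool.Agent.helper62.QU.Spec
import Pool.Agent.helper62.QU.CA1

/-! Project qu (MP_07c750_an), row CVS: differentiation under the integral. -/

open scoped MatrixGroups ContDiff Topology UpperHalfPlane
open UpperHalfPlane MeasureTheory Filter Set

namespace Pool.Agent.QU

/-- locally (in the first variable) compactly supported in the second variable -/
def CVS_LS {H : Type} [NormedAddCommGroup H] (G : ℂ × ℂ → H) : Prop :=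
  ∀ ζ₀ ∈ CA1_U, ∃ k : Set ℍ, IsCompact k ∧ ∀ᶠ ζ in 𝓝 ζ₀, ∀ w : ℍ, w ∉ k → G (ζ, (w : ℂ)) = 0

/-- partial derivative in the first variable -/
noncomputable def CVS_pd {H : Type} [NormedAddCommGroup H] [NormedSpace ℝ H] (G : ℂ × ℂ → H)
    (p : ℂ × ℂ) : ℂ →L[ℝ] H :=
  (fderiv ℝ G p).comp (ContinuousLinearMap.inl ℝ ℂ ℂ)

section gen

variable {H : Type} [NormedAddCommGroup H] [NormedSpace ℝ H]

theorem CVS_open2 : IsOpen (CA1_U ×ˢ CA1_U : Set (ℂ × ℂ)) := CA1_open.prod CA1_open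

theorem CVS_pd_smooth {G : ℂ × ℂ → H} (h : ContDiffOn ℝ ∞ G (CA1_U ×ˢ CA1_U)) :
    ContDiffOn ℝ ∞ (CVS_pd G) (CA1_U ×ˢ CA1_U) := by
  have h1 : ContDiffOn ℝ ∞ (fderiv ℝ G) (CA1_U ×ˢ CA1_U) :=
    h.fderiv_of_isOpen CVS_open2 (by simp)
  exact h1.clm_comp contDiffOn_const

theorem CVS_pd_deriv {G : ℂ × ℂ → H} (h : ContDiffOn ℝ ∞ G (CA1_U ×ˢ CA1_U)) {ζ w : ℂ}
    (hζ : ζ ∈ CA1_U) (hw : w ∈ CA1_U) :
    HasFDerivAt (fun ζ => G (ζ, w)) (CVS_pd G (ζ, w)) ζ := by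
  have h1 : HasFDerivAt G (fderiv ℝ G (ζ, w)) (ζ, w) :=
    ((h.contDiffAt (CVS_open2.mem_nhds ⟨hζ, hw⟩)).differentiableAt (by simp)).hasFDerivAt
  have h2 : HasFDerivAt (fun ζ : ℂ => (ζ, w)) (ContinuousLinearMap.inl ℝ ℂ ℂ) ζ :=
    hasFDerivAt_prodMk_left ζ w
  exact h1.comp ζ h2

theorem CVS_pd_LS {G : ℂ × ℂ → H} (h : ContDiffOn ℝ ∞ G (CA1_U ×ˢ CA1_U)) (hs : CVS_LS G) :
    CVS_LS (CVS_pd G) := by
  intro ζ₀ hζ₀
  obtain ⟨k, hk, hk2⟩ := hs ζ₀ hζ₀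
  refine ⟨k, hk, ?_⟩
  filter_upwards [eventually_eventually_nhds.2 hk2, CA1_open.mem_nhds hζ₀] with ζ h1 h2 w hw
  have h3 := (CVS_pd_deriv h h2 (CA1_mem w)).fderiv
  rw [← h3]
  have h4 : (fun ζ => G (ζ, (w : ℂ))) =ᶠ[𝓝 ζ] fun _ => 0 := by
    filter_upwards [h1] with ξ hξ
    exact hξ w hw
  rw [h4.fderiv_eq]
  simp

variable {E E' : Type} [NormedAddCommGroup E] [NormedSpace ℝ E] [NormedAddCommGroup E']
  [NormedSpace ℝ E']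

theorem CVS_conton (B : H →L[ℝ] E →L[ℝ] E') {G : ℂ × ℂ → H}
    (h : ContDiffOn ℝ ∞ G (CA1_U ×ˢ CA1_U)) {f : ℍ → E} (hf : Continuous f) :
    ContinuousOn (fun p : ℂ × ℍ => B (G (p.1, (p.2 : ℂ))) (f p.2)) (CA1_U ×ˢ univ) := by
  have h1 : ContinuousOn (fun p : ℂ × ℍ => G (p.1, (p.2 : ℂ))) (CA1_U ×ˢ univ) := by
    refine h.continuousOn.comp (f := fun p : ℂ × ℍ => (p.1, (p.2 : ℂ))) ?_ ?_
    · exact (continuous_fst.prodMk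
        (UpperHalfPlane.continuous_coe.comp continuous_snd)).continuousOn
    · rintro ⟨ζ, w⟩ ⟨h1, _⟩
      exact ⟨h1, CA1_mem w⟩
  have h2 : ContinuousOn (fun p : ℂ × ℍ => B (G (p.1, (p.2 : ℂ)))) (CA1_U ×ˢ univ) :=
    B.continuous.comp_continuousOn h1
  exact h2.clm_apply (hf.comp continuous_snd).continuousOn

theorem CVS_cont (B : H →L[ℝ] E →L[ℝ] E') {G : ℂ × ℂ → H}
    (h : ContDiffOn ℝ ∞ G (CA1_U ×ˢ CA1_U)) {f : ℍ → E} (hf : Continuous f) {ζ : ℂ}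
    (hζ : ζ ∈ CA1_U) : Continuous (fun w : ℍ => B (G (ζ, (w : ℂ))) (f w)) := by
  refine (CVS_conton B h hf).comp_continuous (f := fun w : ℍ => (ζ, w)) ?_ ?_
  · exact continuous_const.prodMk continuous_id
  · intro w
    exact ⟨hζ, mem_univ _⟩

theorem CVS_int (B : H →L[ℝ] E →L[ℝ] E') {G : ℂ × ℂ → H}
    (h : ContDiffOn ℝ ∞ G (CA1_U ×ˢ CA1_U)) (hs : CVS_LS G) {f : ℍ → E} (hf : Continuous f) {ζ : ℂ}
    (hζ : ζ ∈ CA1_U) : Integrable (fun w : ℍ => B (G (ζ, (w : ℂ))) (f w)) := by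
  refine (CVS_cont B h hf hζ).integrable_of_hasCompactSupport ?_
  obtain ⟨k, hk, hk2⟩ := hs ζ hζ
  refine HasCompactSupport.intro hk fun w hw => ?_
  have h1 := hk2.self_of_nhds w hw
  rw [h1]
  simp

theorem CVS_main (B : H →L[ℝ] E →L[ℝ] E') (B₁ : (ℂ →L[ℝ] H) →L[ℝ] E →L[ℝ] (ℂ →L[ℝ] E'))
    (hB : ∀ φ e v, B₁ φ e v = B (φ v) e) {G : ℂ × ℂ → H}
    (h : ContDiffOn ℝ ∞ G (CA1_U ×ˢ CA1_U)) (hs : CVS_LS G) {f : ℍ → E} (hf : Continuous f)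
    {ζ₀ : ℂ} (hζ : ζ₀ ∈ CA1_U) :
    HasFDerivAt (fun ζ => ∫ w : ℍ, B (G (ζ, (w : ℂ))) (f w))
      (∫ w : ℍ, B₁ (CVS_pd G (ζ₀, (w : ℂ))) (f w)) ζ₀ := by
  have h' := CVS_pd_smooth h
  have hs' := CVS_pd_LS h hs
  obtain ⟨k, hk, hk2⟩ := hs' ζ₀ hζ
  have hev : ∀ᶠ ζ in 𝓝 ζ₀, (∀ w : ℍ, w ∉ k → CVS_pd G (ζ, (w : ℂ)) = 0) ∧ ζ ∈ CA1_U := by
    filter_upwards [hk2, CA1_open.mem_nhds hζ] with ζ h1 h2
    exact ⟨h1, h2⟩
  obtain ⟨r, hr, hr2⟩ := Metric.nhds_basis_closedBall.eventually_iff.1 hev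
  set C := Metric.closedBall ζ₀ r with hC
  have hCc : IsCompact C := isCompact_closedBall _ _
  have hsub : C ×ˢ k ⊆ CA1_U ×ˢ (univ : Set ℍ) := by
    rintro ⟨ζ, w⟩ ⟨h1, _⟩
    exact ⟨(hr2 h1).2, mem_univ _⟩
  obtain ⟨M, hM⟩ := (hCc.prod hk).exists_bound_of_continuousOn
    ((CVS_conton B₁ h' hf).mono hsub)
  refine hasFDerivAt_integral_of_dominated_of_fderiv_le (s := C)
    (F := fun ζ (w : ℍ) => B (G (ζ, (w : ℂ))) (f w))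
    (F' := fun ζ (w : ℍ) => B₁ (CVS_pd G (ζ, (w : ℂ))) (f w))
    (bound := k.indicator fun _ => M) (Metric.closedBall_mem_nhds _ hr) ?_
    (CVS_int B h hs hf hζ) ?_ ?_ ?_ ?_
  · filter_upwards [CA1_open.mem_nhds hζ] with ζ h1
    exact (CVS_cont B h hf h1).aestronglyMeasurable
  · exact (CVS_cont B₁ h' hf hζ).aestronglyMeasurable
  · refine Eventually.of_forall fun w ζ h1 => ?_
    by_cases hw : w ∈ k
    · rw [indicator_of_mem hw]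
      exact hM (ζ, w) ⟨h1, hw⟩
    · rw [indicator_of_notMem hw, (hr2 h1).1 w hw]
      simp
  · have h5 : IntegrableOn (fun _ : ℍ => M) k :=
      continuous_const.continuousOn.integrableOn_compact hk
    exact h5.integrable_indicator hk.measurableSet
  · refine Eventually.of_forall fun w ζ h1 => ?_
    have h2 : HasFDerivAt (fun ζ => G (ζ, (w : ℂ))) (CVS_pd G (ζ, (w : ℂ))) ζ :=
      CVS_pd_deriv h (hr2 h1).2 (CA1_mem w)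
    have h3 : HasFDerivAt (fun ζ => B (G (ζ, (w : ℂ))) (f w))
        ((B.flip (f w)).comp (CVS_pd G (ζ, (w : ℂ)))) ζ :=
      (B.flip (f w)).hasFDerivAt.comp ζ h2
    have h4 : B₁ (CVS_pd G (ζ, (w : ℂ))) (f w) =
        (B.flip (f w)).comp (CVS_pd G (ζ, (w : ℂ))) := by
      ext v
      exact hB _ _ _
    rw [h4]
    exact h3

end gen

theorem CVS_CD {E : Type} [NormedAddCommGroup E] [NormedSpace ℝ E] {f : ℍ → E}
    (hf : Continuous f) (n : ℕ) : ∀ {H E' : Type} [NormedAddCommGroup H] [NormedSpace ℝ H]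
    [NormedAddCommGroup E'] [NormedSpace ℝ E'] (B : H →L[ℝ] E →L[ℝ] E') {G : ℂ × ℂ → H},
    ContDiffOn ℝ ∞ G (CA1_U ×ˢ CA1_U) → CVS_LS G →
    ContDiffOn ℝ n (fun ζ => ∫ w : ℍ, B (G (ζ, (w : ℂ))) (f w)) CA1_U := by
  induction n with
  | zero =>
    intro H E' _ _ _ _ B G h hs
    rw [Nat.cast_zero, contDiffOn_zero]
    intro ζ hζ
    exact (CVS_main B (B.precompL ℂ) (fun _ _ _ => rfl) h hs hf hζ).continuousAt.continuousWithinAt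
  | succ n ih =>
    intro H E' _ _ _ _ B G h hs
    rw [Nat.cast_succ, contDiffOn_succ_iff_fderiv_of_isOpen CA1_open]
    refine ⟨fun ζ hζ => (CVS_main B (B.precompL ℂ) (fun _ _ _ => rfl) h hs hf
      hζ).differentiableAt.differentiableWithinAt, ?_, ?_⟩
    · intro h1
      simp at h1
    · refine (ih (B.precompL ℂ) (CVS_pd_smooth h) (CVS_pd_LS h hs)).congr ?_
      intro ζ hζ
      exact (CVS_main B (B.precompL ℂ) (fun _ _ _ => rfl) h hs hf hζ).fderiv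

/-- the kernel -/
noncomputable def CVS_G (κ : ℝ → ℝ) (p : ℂ × ℂ) : ℝ :=
  κ (‖p.1 - p.2‖ ^ 2 / (2 * p.1.im * p.2.im))

theorem CVS_G_smooth {κ : ℝ → ℝ} (hκ : ContDiff ℝ ∞ κ) :
    ContDiffOn ℝ ∞ (CVS_G κ) (CA1_U ×ˢ CA1_U) := by
  refine hκ.comp_contDiffOn (ContDiffOn.div ?_ ?_ ?_)
  · exact ((contDiff_fst.sub contDiff_snd).norm_sq ℝ).contDiffOn
  · exact ((contDiff_const.mul (Complex.imCLM.contDiff.comp contDiff_fst)).mul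
      (Complex.imCLM.contDiff.comp contDiff_snd)).contDiffOn
  · rintro ⟨ζ, w⟩ ⟨h1, h2⟩
    have h1' : 0 < ζ.im := h1
    have h2' : 0 < w.im := h2
    positivity

theorem CVS_G_eq (κ : ℝ → ℝ) {ζ : ℂ} (hζ : ζ ∈ CA1_U) (w : ℍ) :
    κ (tt (ofComplex ζ) w) = CVS_G κ (ζ, (w : ℂ)) := by
  unfold tt CVS_G
  rw [CA1_coe hζ, CA1_im hζ]
  rfl

theorem CVS_G_LS (h1 : TTT_stmt) {κ : ℝ → ℝ} (hκ : RK κ) : CVS_LS (CVS_G κ) := by
  obtain ⟨s, hs⟩ := hκ.supp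
  obtain ⟨R, hR0, hR⟩ := h1.2.2.2.2.2.1 s
  intro ζ₀ hζ₀
  refine ⟨Metric.closedBall (ofComplex ζ₀) (R + 1), isCompact_closedBall _ _, ?_⟩
  have h2 : ∀ᶠ ζ in 𝓝 ζ₀, dist (ofComplex ζ) (ofComplex ζ₀) < 1 :=
    (CA1_ofc hζ₀).eventually (Metric.ball_mem_nhds _ one_pos)
  filter_upwards [h2, CA1_open.mem_nhds hζ₀] with ζ h3 h4 w hw
  rw [← CVS_G_eq κ h4]
  apply hs
  by_contra h5
  push Not at h5
  have h6 := hR _ _ h5.le
  apply hw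
  rw [Metric.mem_closedBall]
  calc dist w (ofComplex ζ₀) ≤ dist w (ofComplex ζ) + dist (ofComplex ζ) (ofComplex ζ₀) :=
        dist_triangle _ _ _
    _ ≤ R + 1 := add_le_add (by rw [dist_comm]; exact h6) h3.le

theorem CVS_second {E : Type} [NormedAddCommGroup E] [NormedSpace ℝ E] {φ : ℂ → E} {z : ℂ}
    (h : ContDiffAt ℝ 2 φ z) (v v' : ℂ) :
    fderiv ℝ (fun ζ => fderiv ℝ φ ζ v') z v = fderiv ℝ (fderiv ℝ φ) z v v' := by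
  have h1 : DifferentiableAt ℝ (fderiv ℝ φ) z :=
    (h.fderiv_right (m := 1) (by norm_num)).differentiableAt (by norm_num)
  have h2 := h1.hasFDerivAt.clm_apply (hasFDerivAt_const v' z)
  rw [h2.fderiv]
  simp

theorem CVS_pv_smooth {G : ℂ × ℂ → ℝ} (h : ContDiffOn ℝ ∞ G (CA1_U ×ˢ CA1_U)) (v : ℂ) :
    ContDiffOn ℝ ∞ (fun p => CVS_pd G p v) (CA1_U ×ˢ CA1_U) :=
  (CVS_pd_smooth h).clm_apply contDiffOn_const

theorem CVS_pv_LS {G : ℂ × ℂ → ℝ} (h : ContDiffOn ℝ ∞ G (CA1_U ×ˢ CA1_U)) (hs : CVS_LS G)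
    (v : ℂ) : CVS_LS (fun p => CVS_pd G p v) := by
  intro ζ₀ hζ₀
  obtain ⟨k, hk, hk2⟩ := CVS_pd_LS h hs ζ₀ hζ₀
  refine ⟨k, hk, ?_⟩
  filter_upwards [hk2] with ζ h1 w hw
  change CVS_pd G (ζ, (w : ℂ)) v = 0
  rw [h1 w hw]
  rfl

/-- first derivative of a smooth kernel operator -/
theorem CVS_first {E : Type} [NormedAddCommGroup E] [NormedSpace ℝ E] [CompleteSpace E]
    {G : ℂ × ℂ → ℝ} (h : ContDiffOn ℝ ∞ G (CA1_U ×ˢ CA1_U)) (hs : CVS_LS G) {f : ℍ → E}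
    (hf : Continuous f) {ζ : ℂ} (hζ : ζ ∈ CA1_U) (v : ℂ) :
    fderiv ℝ (fun ζ => ∫ w : ℍ, G (ζ, (w : ℂ)) • f w) ζ v =
      ∫ w : ℍ, CVS_pd G (ζ, (w : ℂ)) v • f w := by
  obtain ⟨B, hB⟩ : ∃ B : ℝ →L[ℝ] E →L[ℝ] E, ∀ c e, B c e = c • e :=
    ⟨ContinuousLinearMap.lsmul ℝ ℝ, fun _ _ => rfl⟩
  obtain ⟨B₁, hB₁⟩ : ∃ B₁ : (ℂ →L[ℝ] ℝ) →L[ℝ] E →L[ℝ] (ℂ →L[ℝ] E),
    ∀ φ e v, B₁ φ e v = B (φ v) e := ⟨B.precompL ℂ, fun _ _ _ => rfl⟩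
  have h1 := CVS_main B B₁ hB₁ h hs hf hζ
  have h2 : (fun ζ => ∫ w : ℍ, G (ζ, (w : ℂ)) • f w) =
      fun ζ => ∫ w : ℍ, B (G (ζ, (w : ℂ))) (f w) := by
    funext ζ
    refine integral_congr_ae (Eventually.of_forall fun w => ?_)
    exact (hB _ _).symm
  rw [h2, h1.fderiv, ContinuousLinearMap.integral_apply
    (CVS_int B₁ (CVS_pd_smooth h) (CVS_pd_LS h hs) hf hζ)]
  refine integral_congr_ae (Eventually.of_forall fun w => ?_)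
  change B₁ (CVS_pd G (ζ, (w : ℂ))) (f w) v = CVS_pd G (ζ, (w : ℂ)) v • f w
  rw [hB₁, hB]

theorem CVS_int0 {E : Type} [NormedAddCommGroup E] [NormedSpace ℝ E]
    {G : ℂ × ℂ → ℝ} (h : ContDiffOn ℝ ∞ G (CA1_U ×ˢ CA1_U)) (hs : CVS_LS G) {f : ℍ → E}
    (hf : Continuous f) {ζ : ℂ} (hζ : ζ ∈ CA1_U) :
    Integrable (fun w : ℍ => G (ζ, (w : ℂ)) • f w) :=
  CVS_int (ContinuousLinearMap.lsmul ℝ ℝ : ℝ →L[ℝ] E →L[ℝ] E) h hs hf hζ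

theorem CVS_CD0 {E : Type} [NormedAddCommGroup E] [NormedSpace ℝ E]
    {G : ℂ × ℂ → ℝ} (h : ContDiffOn ℝ ∞ G (CA1_U ×ˢ CA1_U)) (hs : CVS_LS G) {f : ℍ → E}
    (hf : Continuous f) (n : ℕ) :
    ContDiffOn ℝ n (fun ζ => ∫ w : ℍ, G (ζ, (w : ℂ)) • f w) CA1_U :=
  CVS_CD hf n (ContinuousLinearMap.lsmul ℝ ℝ : ℝ →L[ℝ] E →L[ℝ] E) h hs

theorem CVS (h1 : TTT_stmt) (h2 : CA1_stmt) (h3 : LAK_stmt) : CVS_stmt := by
  intro E _ _ _ κ f hκ hf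
  have hG := CVS_G_smooth hκ.smooth
  have hL := CVS_G_LS h1 hκ
  have hconv : ∀ ζ ∈ CA1_U, onC (conv κ f) ζ = ∫ w : ℍ, CVS_G κ (ζ, (w : ℂ)) • f w := by
    intro ζ hζ
    change (∫ w : ℍ, κ (tt (ofComplex ζ) w) • f w) = _
    refine integral_congr_ae (Eventually.of_forall fun w => ?_)
    change κ (tt (ofComplex ζ) w) • f w = CVS_G κ (ζ, (w : ℂ)) • f w
    rw [CVS_G_eq κ hζ]
  have hCD : CD 2 (conv κ f) := (CVS_CD0 hG hL hf 2).congr hconv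
  -- derivatives of the kernel
  have hk1 : ∀ (w : ℍ), ∀ ζ ∈ CA1_U, fderiv ℝ (onC (fun z' => κ (tt z' w))) ζ =
      CVS_pd (CVS_G κ) (ζ, (w : ℂ)) := by
    intro w ζ hζ
    rw [← (CVS_pd_deriv hG hζ (CA1_mem w)).fderiv]
    apply Filter.EventuallyEq.fderiv_eq
    filter_upwards [CA1_open.mem_nhds hζ] with ξ hξ
    exact CVS_G_eq κ hξ w
  have hk2 : ∀ (w : ℍ), ∀ ζ ∈ CA1_U, ∀ v v' : ℂ,
      fderiv ℝ (fderiv ℝ (onC (fun z' => κ (tt z' w)))) ζ v v' =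
      CVS_pd (fun p => CVS_pd (CVS_G κ) p v') (ζ, (w : ℂ)) v := by
    intro w ζ hζ v v'
    have hc : ContDiffAt ℝ 2 (onC (fun z' => κ (tt z' w))) ζ :=
      (h3.1 κ 2 w (by exact_mod_cast contDiff_infty.1 hκ.smooth 2)).contDiffAt (CA1_open.mem_nhds hζ)
    rw [← CVS_second hc, ← (CVS_pd_deriv (CVS_pv_smooth hG v') hζ (CA1_mem w)).fderiv]
    have h4 : (fun ζ => fderiv ℝ (onC (fun z' => κ (tt z' w))) ζ v') =ᶠ[𝓝 ζ]
        fun ζ => CVS_pd (CVS_G κ) (ζ, (w : ℂ)) v' := by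
      filter_upwards [CA1_open.mem_nhds hζ] with ξ hξ
      rw [hk1 w ξ hξ]
    rw [h4.fderiv_eq]
  have hd1 : ∀ ζ ∈ CA1_U, ∀ v : ℂ, fderiv ℝ (onC (conv κ f)) ζ v =
      ∫ w : ℍ, CVS_pd (CVS_G κ) (ζ, (w : ℂ)) v • f w := by
    intro ζ hζ v
    rw [← CVS_first hG hL hf hζ]
    congr 1
    apply Filter.EventuallyEq.fderiv_eq
    filter_upwards [CA1_open.mem_nhds hζ] with ξ hξ
    exact hconv ξ hξ
  have hi2' : ∀ (z : ℍ) (v v' : ℂ), Integrable fun w : ℍ =>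
      fderiv ℝ (fderiv ℝ (onC (fun z' => κ (tt z' w)))) (z : ℂ) v v' • f w := by
    intro z v v'
    have h4 := CVS_int0 (CVS_pv_smooth (CVS_pv_smooth hG v') v)
      (CVS_pv_LS (CVS_pv_smooth hG v') (CVS_pv_LS hG hL v') v) hf (CA1_mem z)
    refine h4.congr (Eventually.of_forall fun w => ?_)
    change CVS_pd (fun p => CVS_pd (CVS_G κ) p v') ((z : ℂ), (w : ℂ)) v • f w = _ • f w
    rw [hk2 w z (CA1_mem z)]
  have hA : ∀ (z : ℍ) (v v' : ℂ), fderiv ℝ (fderiv ℝ (onC (conv κ f))) (z : ℂ) v v' =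
    ∫ w : ℍ, fderiv ℝ (fderiv ℝ (onC (fun z' => κ (tt z' w)))) (z : ℂ) v v' • f w := by
    intro z v v'
    have hc : ContDiffAt ℝ 2 (onC (conv κ f)) (z : ℂ) :=
      hCD.contDiffAt (CA1_open.mem_nhds (CA1_mem z))
    rw [← CVS_second hc]
    have h4 : (fun ζ => fderiv ℝ (onC (conv κ f)) ζ v') =ᶠ[𝓝 (z : ℂ)]
        fun ζ => ∫ w : ℍ, CVS_pd (CVS_G κ) (ζ, (w : ℂ)) v' • f w := by
      filter_upwards [CA1_open.mem_nhds (CA1_mem z)] with ξ hξ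
      exact hd1 ξ hξ v'
    rw [h4.fderiv_eq]
    have h5 := CVS_first (CVS_pv_smooth hG v') (CVS_pv_LS hG hL v') hf (CA1_mem z) v
    refine h5.trans ?_
    refine integral_congr_ae (Eventually.of_forall fun w => ?_)
    change CVS_pd (fun p => CVS_pd (CVS_G κ) p v') ((z : ℂ), (w : ℂ)) v • f w =
      fderiv ℝ (fderiv ℝ (onC (fun z' => κ (tt z' w)))) (z : ℂ) v v' • f w
    rw [hk2 w z (CA1_mem z)]
  refine ⟨hCD, ?_, hA, ?_⟩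
  · intro z v
    rw [hd1 z (CA1_mem z)]
    refine integral_congr_ae (Eventually.of_forall fun w => ?_)
    change CVS_pd (CVS_G κ) ((z : ℂ), (w : ℂ)) v • f w =
      fderiv ℝ (onC (fun z' => κ (tt z' w))) (z : ℂ) v • f w
    rw [hk1 w z (CA1_mem z)]
  · intro z
    change -(z.im ^ 2) • (fderiv ℝ (fderiv ℝ (onC (conv κ f))) (z : ℂ) 1 1 +
      fderiv ℝ (fderiv ℝ (onC (conv κ f))) (z : ℂ) Complex.I Complex.I) =
      ∫ w : ℍ, LL κ (tt z w) • f w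
    rw [hA, hA, ← integral_add (hi2' z 1 1) (hi2' z Complex.I Complex.I), ← integral_smul]
    refine integral_congr_ae (Eventually.of_forall fun w => ?_)
    change -(z.im ^ 2) • (fderiv ℝ (fderiv ℝ (onC (fun z' => κ (tt z' w)))) (z : ℂ) 1 1 • f w +
      fderiv ℝ (fderiv ℝ (onC (fun z' => κ (tt z' w)))) (z : ℂ) Complex.I Complex.I • f w) =
      LL κ (tt z w) • f w
    rw [← h3.2.1 κ w z (by exact_mod_cast contDiff_infty.1 hκ.smooth 2), ← add_smul, smul_smul]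
    rfl

end Pool.Agent.QU
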